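import Pool.Agent.Q94.SNC

/-!
MP_061dbe_an, Q1.  No neighbourhood `Σ_δ(f)`, `δ > 0`, of any `f ∈ A` is contained in the dual `S*`.
In particular `Σ_γ(z/(1-xz)) ⊄ S*`, `γ = (1+ρ)⁻²`, for every pair `|x| ≤ ρ ≤ 1`.
-/

set_option autoImplicit false

namespace Pool.Agent.Results.MP_061dbe_an.NoSigmaNeighbourhood

open Complex Filter Topology Metric

/-- the `n`-th Taylor coefficient at `0` -/
noncomputable def coeff (f : ℂ → ℂ) (n : ℕ) : ℂ := iteratedDeriv n f 0 / (n.factorial : ℂ)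

/-- the class `A`: analytic on the unit disc, `f(0) = 0`, `f'(0) = 1` -/
def ClassA : Set (ℂ → ℂ) :=
  {f | DifferentiableOn ℂ f (ball (0 : ℂ) 1) ∧ f 0 = 0 ∧ deriv f 0 = 1}

/-- the class `S`: the univalent members of `A` -/
def ClassS : Set (ℂ → ℂ) := {f | f ∈ ClassA ∧ Set.InjOn f (ball (0 : ℂ) 1)}

/-- the Hadamard product -/
noncomputable def hadamard (f g : ℂ → ℂ) (z : ℂ) : ℂ := ∑' n : ℕ, coeff f n * coeff g n * z ^ n

/-- the dual `F*` of a family `F` -/
def dual (F : Set (ℂ → ℂ)) : Set (ℂ → ℂ) :=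
  {f | f ∈ ClassA ∧ ∀ g ∈ F, ∀ z : ℂ, 0 < ‖z‖ → ‖z‖ < 1 → hadamard f g z ≠ 0}

/-- the neighbourhood `Σ_δ(f)` (at `z = 0` the quotient `(g-f)(z)/z` has the value `0`, which is
also the value of the analytic function `(g-f)/z` there) -/
def SigmaNbhd (δ : ℝ) (f : ℂ → ℂ) : Set (ℂ → ℂ) :=
  {g | g ∈ ClassA ∧ ∀ z ∈ ball (0 : ℂ) 1,
    ‖(deriv g z - deriv f z) - (g z - f z) / z‖ + ‖(deriv g z - deriv f z) + (g z - f z) / z‖
      < 2 * δ}

open Q94.SN in
theorem main (f : ℂ → ℂ) (hf : f ∈ ClassA) (δ : ℝ) (hδ : 0 < δ) :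
    ¬ SigmaNbhd δ f ⊆ dual ClassS := by
  intro hsub
  obtain ⟨hfd, hf0, hf1⟩ := hf
  obtain ⟨ε, h0, h1, r, hr0, hr1, hK⟩ := exists_pair (5 / δ)
  -- the univalent function
  have hS : Q (cc ε) ∈ ClassS := by
    refine ⟨⟨Q_diff _, ?_, ?_⟩, Q_inj (cc_ne h0) (cc_spiral (by linarith))⟩
    · unfold Q; simp
    · rw [(Q_deriv (cc ε) (mem_ball_self one_pos)).deriv, P_zero]; simp
  have hcf0 : Q94.SN.coeff f 0 = 0 := by unfold Q94.SN.coeff; simp [hf0]
  have hcf1 : Q94.SN.coeff f 1 = 1 := by unfold Q94.SN.coeff; simp [iteratedDeriv_one, hf1]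
  have ha : Sub (fun n => Q94.SN.coeff f (n + 1)) := sub_succ (sub_coeff hfd)
  have hc : Sub (pc (cc ε)) := sub_pc _
  have hb : Sub (pc (bb ε)) := sub_pc _
  obtain ⟨Φ, hΦ⟩ : ∃ Φ : ℂ → ℂ, Φ = fun z => ∑' n, Q94.SN.coeff f (n + 1) * pc (cc ε) n * z ^ n :=
    ⟨_, rfl⟩
  have hΦd : DifferentiableOn ℂ Φ (ball (0:ℂ) 1) := by rw [hΦ]; exact had_diff ha hc
  have hΦs : ∀ z : ℂ, ‖z‖ < 1 →
      HasSum (fun n => Q94.SN.coeff f (n + 1) * pc (cc ε) n * z ^ n) (Φ z) := by
    intro z hz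
    rw [hΦ]
    exact (had_summable ha hc hz).hasSum
  have hΦ0 : Φ 0 = 1 := by
    have h := hΦs 0 (by simp)
    have h2 : HasSum (fun n => Q94.SN.coeff f (n + 1) * pc (cc ε) n * (0:ℂ) ^ n)
        (Q94.SN.coeff f (0 + 1) * pc (cc ε) 0 * (0:ℂ) ^ 0) := by
      apply hasSum_single
      intro n hn
      rw [zero_pow hn, mul_zero]
    rw [h.unique h2, pc_zero, zero_add, hcf1]
    simp
  -- the value of the pairing
  obtain ⟨T, hT⟩ : ∃ T : ℂ, T = (∑' n : ℕ, t ε n * (r : ℂ) ^ n) - 1 := ⟨_, rfl⟩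
  rw [← hT] at hK
  have hrn : ‖(r : ℂ)‖ < 1 := by rw [norm_real, Real.norm_of_nonneg hr0.le]; exact hr1
  have hTs : HasSum (fun n => t ε n * (r : ℂ) ^ n) (T + 1) := by
    rw [hT, sub_add_cancel]
    exact (had_summable hc hb hrn).hasSum
  have hTpos : 0 < ‖T‖ := lt_trans (by positivity) hK
  have hT0 : T ≠ 0 := norm_pos_iff.mp hTpos
  -- lower bound on the circle
  have hcirc : ∀ z : ℂ, ‖z‖ = r → δ / 5 * ‖T‖ ≤ ‖Φ z‖ := by
    intro z hz
    by_contra hcon
    push Not at hcon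
    have hz0 : z ≠ 0 := by
      intro h; rw [h, norm_zero] at hz; linarith
    have hz1 : z ∈ ball (0:ℂ) 1 := by rw [mem_ball_zero_iff]; linarith
    obtain ⟨u, hu⟩ : ∃ u : ℂ, u = r / z := ⟨_, rfl⟩
    have hun : ‖u‖ = 1 := by
      rw [hu, norm_div, hz, norm_real, Real.norm_of_nonneg hr0.le, div_self hr0.ne']
    have huz : u * z = r := by rw [hu]; field_simp
    obtain ⟨κ, hκ⟩ : ∃ κ : ℂ, κ = -(Φ z / T) := ⟨_, rfl⟩
    have hκn : ‖κ‖ < δ / 5 := by
      rw [hκ, norm_neg, norm_div, div_lt_iff₀ hTpos]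
      exact hcon
    obtain ⟨g, hg⟩ : ∃ g : ℂ → ℂ, g = fun w => f w + κ * G ε u w := ⟨_, rfl⟩
    have hgd : ∀ w ∈ ball (0:ℂ) 1, HasDerivAt g (deriv f w + κ * deriv (G ε u) w) w := by
      intro w hw
      have k1 := (hfd.differentiableAt (isOpen_ball.mem_nhds hw)).hasDerivAt
      have k2 := ((G_deriv ε hun hw).differentiableAt.hasDerivAt).const_mul κ
      rw [hg]
      exact k1.add k2
    have hgdiff : DifferentiableOn ℂ g (ball (0:ℂ) 1) :=
      fun w hw => (hgd w hw).differentiableAt.differentiableWithinAt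
    have hgA : g ∈ ClassA := by
      refine ⟨hgdiff, ?_, ?_⟩
      · rw [hg]; simp [hf0, G_zero]
      · rw [(hgd 0 (mem_ball_self one_pos)).deriv, (G_deriv ε hun (mem_ball_self one_pos)).deriv,
          hf1]
        simp [P_zero]
    have hgS : g ∈ SigmaNbhd δ f := by
      refine ⟨hgA, ?_⟩
      intro w hw
      rw [(hgd w hw).deriv]
      have e0 : g w - f w = κ * G ε u w := by rw [hg]; ring
      have e1 : deriv f w + κ * deriv (G ε u) w - deriv f w - (g w - f w) / w =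
          κ * (deriv (G ε u) w - G ε u w / w) := by rw [e0]; ring
      have e2 : deriv f w + κ * deriv (G ε u) w - deriv f w + (g w - f w) / w =
          κ * (deriv (G ε u) w + G ε u w / w) := by rw [e0]; ring
      rw [e1, e2, norm_mul, norm_mul, ← mul_add]
      have h3 := G_norm h0 h1 hun hw
      nlinarith [norm_nonneg κ, norm_nonneg (deriv (G ε u) w - G ε u w / w),
        norm_nonneg (deriv (G ε u) w + G ε u w / w)]
    have hgc : ∀ n, Q94.SN.coeff g n = Q94.SN.coeff f n +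
        κ * shift (fun m => pc (bb ε) m * u ^ m - (if m = 0 then 1 else 0)) n := by
      apply coeff_unique hgdiff
      intro w hw
      have k1 := (hasSum_coeff hfd hw).add ((G_hasSum ε hun hw).mul_left κ)
      rw [hg]
      refine k1.congr_fun ?_ |> fun h => h
      intro n
      ring
    -- the Hadamard product vanishes
    have hz1' : ‖z‖ < 1 := by linarith
    have hprod : HasSum (fun n => Q94.SN.coeff g n * Q94.SN.coeff (Q (cc ε)) n * z ^ n)
        (z * (Φ z + κ * T)) := by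
      have k1 := hΦs z hz1'
      have k3 : HasSum (fun n : ℕ => if n = 0 then (1:ℂ) else 0) 1 := hasSum_ite_eq 0 1
      have k2 : HasSum (fun n => t ε n * (r : ℂ) ^ n - (if n = 0 then (1:ℂ) else 0)) T := by
        have := hTs.sub k3
        rwa [add_sub_cancel_right] at this
      have k4 := (k1.add (k2.mul_left κ))
      have k5 : HasSum (fun n => (Q94.SN.coeff f (n + 1) * pc (cc ε) n +
          κ * (t ε n * u ^ n - (if n = 0 then (1:ℂ) else 0))) * z ^ n) (Φ z + κ * T) := by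
        refine k4.congr_fun ?_ |> fun h => h
        intro n
        rcases Nat.eq_zero_or_pos n with h | h
        · subst h; simp
        · rw [if_neg h.ne', ← huz, mul_pow]; ring
      have k6 := hasSum_shift k5
      refine k6.congr_fun ?_ |> fun h => h
      intro n
      rw [hgc, coeff_Q]
      cases n with
      | zero => simp [shift]
      | succ n =>
        simp only [shift]
        unfold t
        rcases Nat.eq_zero_or_pos n with h | h
        · subst h; simp [pc_zero]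
        · rw [if_neg h.ne']; ring
    have hval : Φ z + κ * T = 0 := by
      rw [hκ]
      field_simp
      ring
    rw [hval, mul_zero] at hprod
    have hmem := hsub hgS
    exact hmem.2 _ hS z (norm_pos_iff.mpr hz0) hz1' hprod.tsum_eq
  -- minimum principle
  have hk : 1 < δ / 5 * ‖T‖ := by
    have : 5 / δ * (δ / 5) = 1 := by field_simp
    nlinarith
  obtain ⟨z, hz0, hzr, hz⟩ := exists_zero hΦd hr0 hr1 hk hcirc hΦ0
  have hfS : f ∈ SigmaNbhd δ f := by
    refine ⟨⟨hfd, hf0, hf1⟩, ?_⟩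
    intro w _
    simp
    exact hδ
  have hmem := hsub hfS
  refine hmem.2 _ hS z (norm_pos_iff.mpr hz0) (by linarith) ?_
  have hprod : HasSum (fun n => Q94.SN.coeff f n * Q94.SN.coeff (Q (cc ε)) n * z ^ n)
      (z * Φ z) := by
    have k6 := hasSum_shift (hΦs z (by linarith))
    refine k6.congr_fun ?_ |> fun h => h
    intro n
    rw [coeff_Q]
    cases n with
    | zero => simp [shift]
    | succ n => simp only [shift]
  rw [hz, mul_zero] at hprod
  exact hprod.tsum_eq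

/-- `z/(1-xz)` belongs to `A` when `|x| ≤ 1` -/
theorem mobius_mem (x : ℂ) (hx : ‖x‖ ≤ 1) : (fun z : ℂ => z / (1 - x * z)) ∈ ClassA := by
  have hne : ∀ z ∈ ball (0:ℂ) 1, 1 - x * z ≠ 0 := by
    intro z hz h
    have h1 : x * z = 1 := (sub_eq_zero.mp h).symm
    have h2 : ‖x * z‖ = 1 := by rw [h1, norm_one]
    rw [norm_mul] at h2
    have h3 : ‖z‖ < 1 := by simpa using hz
    nlinarith [norm_nonneg z, norm_nonneg x]
  have hd : ∀ z ∈ ball (0:ℂ) 1, HasDerivAt (fun z : ℂ => z / (1 - x * z))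
      ((1 * (1 - x * z) - z * (-(x * 1))) / (1 - x * z) ^ 2) z := by
    intro z hz
    exact (hasDerivAt_id z).div (((hasDerivAt_id z).const_mul x).const_sub 1) (hne z hz)
  refine ⟨fun z hz => (hd z hz).differentiableAt.differentiableWithinAt, by simp, ?_⟩
  rw [(hd 0 (mem_ball_self one_pos)).deriv]
  simp

/-- **MP_061dbe_an, Q1 (disproved for every pair `(x, ρ)`).** -/
theorem result :
    (∀ f ∈ ClassA, ∀ δ : ℝ, 0 < δ → ¬ SigmaNbhd δ f ⊆ dual ClassS) ∧
    (∀ (x : ℂ) (ρ : ℝ), ‖x‖ ≤ ρ → ρ ≤ 1 →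
      ¬ SigmaNbhd (1 / (1 + ρ) ^ 2) (fun z => z / (1 - x * z)) ⊆ dual ClassS) := by
  refine ⟨main, ?_⟩
  intro x ρ hx hρ
  have h0 : 0 ≤ ρ := (norm_nonneg x).trans hx
  exact main _ (mobius_mem x (hx.trans hρ)) _ (by positivity)

end Pool.Agent.Results.MP_061dbe_an.NoSigmaNeighbourhood
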